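import Mathlib
import Pool.Agent.W209.KT.Stm

/-! Nondegeneracy of the curve in the affine subspace. -/

set_option autoImplicit false

namespace Pool.Agent.W104.KT

open Finset Pool.Agent.W209.KT

/-- the linear part of `pt A` -/
noncomputable def lin (A : Fin 2 → Fin 11 → ℝ) : (Fin 10 → ℝ) →ₗ[ℝ] (Fin 12 → ℝ) where
  toFun x := Fin.append x (fun j : Fin 2 => ∑ l : Fin 10, A j l.succ * x l)
  map_add' x y := by
    funext i
    refine Fin.addCases (m := 10) (n := 2) (fun i => ?_) (fun j => ?_) i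
    · simp only [Fin.append_left, Pi.add_apply]
    · simp only [Fin.append_right, Pi.add_apply, mul_add, Finset.sum_add_distrib]
  map_smul' c x := by
    funext i
    refine Fin.addCases (m := 10) (n := 2) (fun i => ?_) (fun j => ?_) i
    · simp only [Fin.append_left, Pi.smul_apply, RingHom.id_apply]
    · simp only [Fin.append_right, Pi.smul_apply, RingHom.id_apply, smul_eq_mul, Finset.mul_sum]
      exact Finset.sum_congr rfl fun l _ => by ring

theorem pt_eq (A : Fin 2 → Fin 11 → ℝ) (x : Fin 10 → ℝ) : pt A x = pt A 0 + lin A x := by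
  funext i
  refine Fin.addCases (m := 10) (n := 2) (fun i => ?_) (fun j => ?_) i
  · simp only [pt, lin, LinearMap.coe_mk, AddHom.coe_mk, Pi.add_apply, Fin.append_left,
      Pi.zero_apply, zero_add]
  · simp only [pt, lin, aff, LinearMap.coe_mk, AddHom.coe_mk, Pi.add_apply, Fin.append_right,
      Pi.zero_apply, mul_zero, Finset.sum_const_zero, add_zero]

/-- the derivatives of the moment curve -/
noncomputable def gd (i : ℕ) (t : ℝ) : Fin 10 → ℝ :=
  fun l => ((l.1 + 1).descFactorial i : ℝ) * t ^ (l.1 + 1 - i)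

theorem gd_zero (t : ℝ) : gd 0 t = gam t := by
  funext l; simp [gd, gam]

theorem hasDerivAt_gd (i : ℕ) (t : ℝ) : HasDerivAt (fun t => gd i t) (gd (i + 1) t) t := by
  rw [hasDerivAt_pi]
  intro l
  have h := (hasDerivAt_pow (l.1 + 1 - i) t).const_mul ((l.1 + 1).descFactorial i : ℝ)
  have e : ((l.1 + 1).descFactorial i : ℝ) * (((l.1 + 1 - i : ℕ) : ℝ) * t ^ (l.1 + 1 - i - 1)) =
      gd (i + 1) t l := by
    unfold gd
    rw [Nat.descFactorial_succ, Nat.cast_mul, show l.1 + 1 - (i + 1) = l.1 + 1 - i - 1 by omega]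
    ring
  rw [← e]
  exact h

theorem hasDerivAt_lin (A : Fin 2 → Fin 11 → ℝ) (i : ℕ) (t : ℝ) :
    HasDerivAt (fun t => lin A (gd i t)) (lin A (gd (i + 1) t)) t :=
  (LinearMap.toContinuousLinearMap (lin A)).hasFDerivAt.comp_hasDerivAt t (hasDerivAt_gd i t)

theorem iter (A : Fin 2 → Fin 11 → ℝ) (i : ℕ) :
    iteratedDeriv (i + 1) (fun t => pt A (gam t)) = fun t => lin A (gd (i + 1) t) := by
  induction i with
  | zero =>
    rw [zero_add, iteratedDeriv_one]
    funext t
    have h : HasDerivAt (fun t => pt A 0 + lin A (gd 0 t)) (lin A (gd 1 t)) t :=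
      (hasDerivAt_lin A 0 t).const_add _
    have e : (fun t => pt A (gam t)) = fun t => pt A 0 + lin A (gd 0 t) := by
      funext s; rw [pt_eq A (gam s), gd_zero]
    rw [e]
    exact h.deriv
  | succ i ih =>
    rw [iteratedDeriv_succ, ih]
    funext t
    exact (hasDerivAt_lin A (i + 1) t).deriv

/-- the matrix of the derivatives -/
noncomputable def M (t : ℝ) : Matrix (Fin 10) (Fin 10) ℝ := fun i => gd (i.1 + 1) t

theorem det_M (t : ℝ) : (M t).det ≠ 0 := by
  have hT : (M t).BlockTriangular id := by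
    intro i j hij
    have hij' : j.1 < i.1 := hij
    show gd (i.1 + 1) t j = 0
    unfold gd
    rw [Nat.descFactorial_eq_zero_iff_lt.2 (by omega)]
    simp
  rw [Matrix.det_of_isUpperTriangular hT]
  refine Finset.prod_ne_zero_iff.2 fun i _ => ?_
  show gd (i.1 + 1) t i ≠ 0
  unfold gd
  rw [Nat.descFactorial_self, Nat.sub_self, pow_zero, mul_one]
  exact_mod_cast Nat.factorial_ne_zero _

theorem span_gd (t : ℝ) (x : Fin 10 → ℝ) :
    x ∈ Submodule.span ℝ {y : Fin 10 → ℝ | ∃ i, 1 ≤ i ∧ i ≤ 10 ∧ y = gd i t} := by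
  have hu : IsUnit (M t).det := (det_M t).isUnit
  have h : x = Matrix.vecMul (Matrix.vecMul x (M t)⁻¹) (M t) := by
    rw [Matrix.vecMul_vecMul, Matrix.nonsing_inv_mul _ hu, Matrix.vecMul_one]
  rw [h, Matrix.vecMul_eq_sum]
  refine Submodule.sum_mem _ fun i _ => Submodule.smul_mem _ _ (Submodule.subset_span ?_)
  exact ⟨i.1 + 1, by omega, by have := i.2; omega, rfl⟩

theorem nd : S_nd := by
  intro A
  refine ⟨?_, fun t => ?_⟩
  · have e : (fun t => pt A (gam t)) = fun t => pt A 0 + lin A (gam t) := by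
      funext s; exact pt_eq A (gam s)
    rw [e]
    refine contDiff_const.add ?_
    refine (LinearMap.toContinuousLinearMap (lin A)).contDiff.comp ?_
    rw [contDiff_pi]
    intro l
    exact contDiff_id.pow _
  · apply le_antisymm
    · rw [Submodule.span_le]
      rintro w ⟨i, hi1, hi2, rfl⟩
      obtain ⟨i, rfl⟩ : ∃ j, i = j + 1 := ⟨i - 1, by omega⟩
      rw [iter A i]
      refine Submodule.subset_span ⟨gd (i + 1) t, 0, ?_⟩
      show lin A (gd (i + 1) t) = _
      rw [pt_eq A (gd (i + 1) t), add_sub_cancel_left]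
    · rw [Submodule.span_le]
      rintro w ⟨x, y, rfl⟩
      have e : pt A x - pt A y = lin A (x - y) := by
        rw [pt_eq A x, pt_eq A y, map_sub]; abel
      rw [e]
      have hx := span_gd t (x - y)
      have := Submodule.mem_map_of_mem (f := lin A) hx
      rw [Submodule.map_span] at this
      refine Submodule.span_mono ?_ this
      rintro w ⟨z, ⟨i, hi1, hi2, rfl⟩, rfl⟩
      refine ⟨i, hi1, hi2, ?_⟩
      obtain ⟨i, rfl⟩ : ∃ j, i = j + 1 := ⟨i - 1, by omega⟩
      rw [iter A i]

end Pool.Agent.W104.KT
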